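import Pool.Agent.X245.LF.Poly
import Pool.Agent.X245.LF.Mem

/-!
# MP_f29e3e_lc: `𝓛`-Free Subset is strongly NP-complete for every equation
-/

namespace Pool.Agent.Results.MP_f29e3e_lc.StronglyNPComplete

open Pool.Agent.NPC Pool.Agent.X245.LF

set_option autoImplicit false

/-- For every equation `a₁ x₁ + ⋯ + a_ℓ x_ℓ = b y` with `ℓ ≥ 2` and positive integers `a_i`, `b`,
`𝓛`-Free Subset is in NP, and there is a polynomial `p` for which the restriction to the instances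
`(A, k)` with `|x| ≤ p(|A|)` for all `x ∈ A` is NP-complete. -/
theorem result (ℓ : ℕ) (a : Fin ℓ → ℕ) (b : ℕ) (hℓ : 2 ≤ ℓ) (ha : ∀ i, 0 < a i) (hb : 0 < b) :
    InNPP (LFS a b) ∧
    ∃ p : Polynomial ℕ, InNPP (LFSsmall a b p) ∧ NPHardP (LFSsmall a b p) := by
  obtain ⟨p, hp⟩ := strong hℓ ha hb
  exact ⟨mem_NP a b, p, memS_NP a b p, hp.toNPHardP⟩

end Pool.Agent.Results.MP_f29e3e_lc.StronglyNPComplete
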